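import Pool.Agent.H17.CX.Targets

set_option autoImplicit false

namespace Pool.Agent.H34.CNX

open MvPolynomial SC Pool.Agent.H27.LV
open Pool.Agent.H92.SF Pool.Agent.H3.SF Pool.Agent.H17.SD Pool.Agent.H17.SFG Pool.Agent.H17.CX

open scoped IntermediateField.algebraAdjoinAdjoin

theorem nza_hrel {k F σ τ : Type} [Field k] [Field F] [Algebra k F] (X : σ → F) (e : τ ≃ σ)
    (h : HRel k X) : HRel k (X ∘ e) := by
  intro f hf d
  have h1 : aeval X (rename e f) = 0 := by
    rw [aeval_rename]
    exact hf
  have h2 := h _ h1 d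
  rwa [← rename_homogeneousComponent, aeval_rename] at h2

theorem nza_top {k F σ : Type} [Field k] [Field F] [Algebra k F] (X : σ → F)
    (L : IntermediateField k F) (h : IntermediateField.adjoin k (Set.range X) = ⊤) :
    IntermediateField.adjoin L (Set.range X) = ⊤ := by
  have h1 : IntermediateField.adjoin k (Set.range X) ≤
      (IntermediateField.adjoin L (Set.range X)).restrictScalars k := by
    rw [IntermediateField.adjoin_le_iff]
    exact IntermediateField.subset_adjoin L (Set.range X)
  rw [h] at h1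
  rw [eq_top_iff]
  intro x _
  exact h1 IntermediateField.mem_top

/-- three linear forms which are independent on the component: contradiction -/
theorem nza_three {k F σ LL : Type} [Field k] [Field F] [Algebra k F] [Field LL] [Algebra k LL]
    (X : σ → F) (G : MvPolynomial σ k) (Q : Ideal (MvPolynomial σ k)) (hG0 : aeval X G ≠ 0)
    (htr : Algebra.trdeg k F = 3) (hker : ∀ f, aeval X f = 0 → f ∈ Q) (hG : G ∈ Q)
    (ρ : MvPolynomial σ k →ₐ[k] LL) (hρ : ∀ f, ρ f = 0 ↔ f ∈ Q) (W : Fin 3 → MvPolynomial σ k)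
    (hW : AlgebraicIndependent k fun l => ρ (W l)) : False := by
  have hρW : ∀ P : MvPolynomial (Fin 3) k, ρ (aeval W P) = aeval (fun l => ρ (W l)) P :=
    fun P => comp_aeval_apply (f := W) ρ P
  have hXW : ∀ P : MvPolynomial (Fin 3) k, aeval X (aeval W P) = aeval (fun l => aeval X (W l)) P :=
    fun P => comp_aeval_apply (f := W) (aeval X) P
  have hinj : ∀ P : MvPolynomial (Fin 3) k, aeval W P ∈ Q → P = 0 := by
    intro P hP
    have h1 := (hρ _).2 hP
    rw [hρW] at h1
    exact (injective_iff_map_eq_zero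
      (aeval (fun l => ρ (W l)) : MvPolynomial (Fin 3) k →ₐ[k] LL)).1 hW P h1
  have hv : AlgebraicIndependent k fun l => aeval X (W l) := by
    refine (injective_iff_map_eq_zero
      (aeval (fun l => aeval X (W l)) : MvPolynomial (Fin 3) k →ₐ[k] F)).2 fun P hP => ?_
    rw [← hXW] at hP
    exact hinj P (hker _ hP)
  have htb := hv.isTranscendenceBasis_of_trdeg_le_of_finite (by
    rw [htr, Cardinal.mk_fin]
    exact le_of_eq (by norm_num))
  have halg : Algebra.IsAlgebraic (Algebra.adjoin k (Set.range fun l => aeval X (W l))) F :=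
    hv.isTranscendenceBasis_iff_isAlgebraic.1 htb
  obtain ⟨q, hq0, hq⟩ := (halg.isAlgebraic (aeval X G)).exists_nonzero_coeff_and_aeval_eq_zero
    (mem_nonZeroDivisors_of_ne_zero hG0)
  set E := hv.aevalEquiv with hE
  set q' : Polynomial (MvPolynomial (Fin 3) k) :=
    q.map (E.symm : Algebra.adjoin k (Set.range fun l => aeval X (W l)) →+*
      MvPolynomial (Fin 3) k) with hq'
  have hc0 : q'.coeff 0 ≠ 0 := by
    rw [hq', Polynomial.coeff_map]
    intro h
    apply hq0
    exact (map_eq_zero_iff E.symm E.symm.injective).1 h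
  have hΦ : aeval X (Polynomial.eval₂ ((aeval W : MvPolynomial (Fin 3) k →ₐ[k]
      MvPolynomial σ k) : MvPolynomial (Fin 3) k →+* MvPolynomial σ k) G q') = 0 := by
    have h1 := Polynomial.hom_eval₂ q' ((aeval W : MvPolynomial (Fin 3) k →ₐ[k]
      MvPolynomial σ k) : MvPolynomial (Fin 3) k →+* MvPolynomial σ k)
      ((aeval X : MvPolynomial σ k →ₐ[k] F) : MvPolynomial σ k →+* F) G
    have h2 : aeval X (Polynomial.eval₂ ((aeval W : MvPolynomial (Fin 3) k →ₐ[k]
      MvPolynomial σ k) : MvPolynomial (Fin 3) k →+* MvPolynomial σ k) G q') =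
      Polynomial.eval₂ (((aeval X : MvPolynomial σ k →ₐ[k] F) : MvPolynomial σ k →+* F).comp
        ((aeval W : MvPolynomial (Fin 3) k →ₐ[k] MvPolynomial σ k) :
          MvPolynomial (Fin 3) k →+* MvPolynomial σ k)) (aeval X G) q' := h1
    rw [h2, hq', Polynomial.eval₂_map]
    have h3 : (((aeval X : MvPolynomial σ k →ₐ[k] F) : MvPolynomial σ k →+* F).comp
        ((aeval W : MvPolynomial (Fin 3) k →ₐ[k] MvPolynomial σ k) :
          MvPolynomial (Fin 3) k →+* MvPolynomial σ k)).comp
        (E.symm : Algebra.adjoin k (Set.range fun l => aeval X (W l)) →+*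
      MvPolynomial (Fin 3) k) = algebraMap (Algebra.adjoin k (Set.range fun l => aeval X (W l))) F := by
      ext c
      show aeval X (aeval W (E.symm c)) = (c : F)
      rw [hXW]
      have h4 := hv.algebraMap_aevalEquiv (E.symm c)
      rw [← hE, AlgEquiv.apply_symm_apply] at h4
      exact h4.symm
    rw [h3]
    exact hq
  have hmem := hker _ hΦ
  rw [← Polynomial.divX_mul_X_add q', Polynomial.eval₂_add, Polynomial.eval₂_mul,
    Polynomial.eval₂_X, Polynomial.eval₂_C] at hmem
  have h5 := (Q.add_mem_iff_right (Q.mul_mem_left _ hG)).1 hmem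
  exact hc0 (hinj _ h5)

theorem pf_NZA (hTIN : T_TIN) : T_NZA := by
  classical
  intro k F σ _ _ _ _ _ _ X dd m G g Q hS hC
  have hprime := hC.prime
  have hinf : Infinite k := inferInstance
  set A := MvPolynomial σ k ⧸ Q with hA
  set LL := FractionRing A with hLL
  set ρ : MvPolynomial σ k →ₐ[k] LL := (IsScalarTower.toAlgHom k A LL).comp
    (Ideal.Quotient.mkₐ k Q) with hρdef
  have hρ : ∀ f, ρ f = 0 ↔ f ∈ Q := by
    intro f
    have h1 : ρ f = algebraMap A LL (Ideal.Quotient.mk Q f) := rfl
    rw [h1, map_eq_zero_iff _ (IsFractionRing.injective A LL), Ideal.Quotient.eq_zero_iff_mem]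
  have htop : IntermediateField.adjoin k (Set.range ρ) = ⊤ := by
    rw [eq_top_iff]
    intro z _
    obtain ⟨a, b, -, hab⟩ := IsFractionRing.div_surjective (A := A) z
    obtain ⟨p, rfl⟩ := Ideal.Quotient.mk_surjective a
    obtain ⟨q, rfl⟩ := Ideal.Quotient.mk_surjective b
    rw [← hab]
    exact div_mem (IntermediateField.subset_adjoin k _ ⟨p, rfl⟩)
      (IntermediateField.subset_adjoin k _ ⟨q, rfl⟩)
  set x : σ → LL := fun i => ρ (MvPolynomial.X i) with hx
  have hρx : ∀ f, ρ f = aeval x f := by
    intro f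
    have h1 : ρ = aeval x := by
      apply MvPolynomial.algHom_ext
      intro i
      rw [aeval_X]
    rw [h1]
  have hrel : HRel k x := by
    intro f hf d
    rw [← hρx] at hf ⊢
    exact (hρ _).2 (hC.hom _ ((hρ _).1 hf) d)
  have hxtop : IntermediateField.adjoin k (Set.range x) = ⊤ := by
    rw [eq_top_iff, ← htop, IntermediateField.adjoin_le_iff]
    rintro _ ⟨f, rfl⟩
    rw [hρx]
    have h1 : aeval x f ∈ Algebra.adjoin k (Set.range x) := by
      rw [Algebra.adjoin_range_eq_range_aeval]
      exact ⟨f, rfl⟩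
    exact IntermediateField.algebra_adjoin_le_adjoin k _ h1
  let e : σ ≃ Fin (Fintype.card σ) := Fintype.equivFin σ
  obtain ⟨r, u, hu, hul, hui⟩ := Pool.Agent.H17.SFG.A.nn k LL (Fintype.card σ) (x ∘ e.symm)
    (nza_hrel x e.symm hrel)
  have hrange : Set.range (x ∘ e.symm) = Set.range x := e.symm.surjective.range_comp x
  rw [hrange] at hul
  have hXi : ∀ s, Itg k u (x s) := by
    intro s
    have := hui (e s)
    simpa using this
  have hint : ∀ s, IsIntegral (kF k u) (x s) := by
    intro s
    have h4 : IsIntegral (PA k u) (x s) :=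
      (Pool.Agent.H48.SFG.pf_ITA k LL (Fin r) u (x s)).mp (hXi s)
    exact h4.tower_top
  have htop' := nza_top x (kF k u) hxtop
  have hfd : FiniteDimensional (kF k u) LL := by
    have h4 : FiniteDimensional (kF k u) (IntermediateField.adjoin (kF k u) (Set.range x)) := by
      apply IntermediateField.finiteDimensional_adjoin
      rintro _ ⟨s, rfl⟩
      exact hint s
    rw [htop'] at h4
    exact LinearEquiv.finiteDimensional
      (IntermediateField.topEquiv (F := kF k u) (E := LL)).toLinearEquiv
  have halg : Algebra.IsAlgebraic (Algebra.adjoin k (Set.range u)) LL :=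
    (IsFractionRing.comap_isAlgebraic_iff (A := Algebra.adjoin k (Set.range u))
      (K := kF k u) (C := LL)).mpr inferInstance
  have htb : IsTranscendenceBasis k u := hu.isTranscendenceBasis_iff_isAlgebraic.mpr halg
  have hcard := htb.cardinalMk_eq_trdeg
  rw [Cardinal.mk_fin] at hcard
  -- linear forms
  choose W hW hWX using fun l => span_form x (hul l)
  have hWρ : ∀ l, ρ (W l) = u l := fun l => (hρx _).trans (hWX l)
  -- at least two
  have hr2 : 2 ≤ r := by
    obtain ⟨L, -, hL⟩ := hTIN k F σ X dd m G g Q hS hC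
    have h1 : AlgebraicIndependent k fun l => ρ (L l) := by
      refine (injective_iff_map_eq_zero
        (aeval (fun l => ρ (L l)) : MvPolynomial (Fin 2) k →ₐ[k] LL)).2 fun P hP => ?_
      by_contra hP0
      apply hL P hP0
      rw [← hρ, ← hP]
      exact comp_aeval_apply (f := L) ρ P
    have h2 := h1.cardinalMk_le_trdeg
    rw [← hcard, Cardinal.mk_fin] at h2
    exact_mod_cast h2
  -- at most two
  have hr3 : r < 3 := by
    by_contra hr3
    rw [not_lt] at hr3
    refine nza_three X G Q hS.G0 hS.cone.trd hC.ker hC.mem ρ hρ (fun l => W (Fin.castLE hr3 l)) ?_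
    have h1 : (fun l : Fin 3 => ρ (W (Fin.castLE hr3 l))) = u ∘ Fin.castLE hr3 := by
      funext l
      exact hWρ _
    rw [h1]
    exact hu.comp _ (Fin.castLE_injective hr3)
  obtain rfl : r = 2 := by omega
  have hWu : (fun l => ρ (W l)) = u := funext hWρ
  refine ⟨LL, inferInstance, inferInstance, ρ, W, hρ, htop, hW, ?_, ?_⟩
  · rw [hWu]
    exact hu
  · intro i
    rw [hWu]
    exact hXi i

end Pool.Agent.H34.CNX
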