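import Pool.Agent.H17.CX.Targets

set_option autoImplicit false

namespace Pool.Agent.H34.CNX

open MvPolynomial SC Pool.Agent.H27.LV
open Pool.Agent.H92.SF Pool.Agent.H3.SF Pool.Agent.H17.SD Pool.Agent.H17.SFG Pool.Agent.H17.CX

theorem tin_deg {k : Type} [Field k] {n : ℕ} {P : MvPolynomial (Fin n) k} {d : ℕ}
    (hP : P.IsHomogeneous d) {a : Fin n →₀ ℕ} (ha : a ∈ P.support) : ∑ i, a i = d := by
  rw [hP.degree_eq_sum_deg_support ha]
  exact (Finset.sum_subset (Finset.subset_univ _) fun i _ hi => Finsupp.notMem_support_iff.1 hi).symm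

theorem tin_scale {k A : Type} [Field k] [CommRing A] [Algebra k A] {n : ℕ}
    {P : MvPolynomial (Fin n) k} {d : ℕ} (hP : P.IsHomogeneous d) (t : A) (y : Fin n → A) :
    aeval (fun i => t * y i) P = t ^ d * aeval y P := by
  rw [aeval_def, aeval_def, eval₂_eq', eval₂_eq', Finset.mul_sum]
  refine Finset.sum_congr rfl fun a ha => ?_
  simp only [mul_pow, Finset.prod_mul_distrib, Finset.prod_pow_eq_pow_sum, tin_deg hP ha]
  ring

theorem tin_hc {k σ : Type} [Field k] (L : Fin 2 → MvPolynomial σ k)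
    (hL : ∀ l, (L l).IsHomogeneous 1) (P : MvPolynomial (Fin 2) k) (d : ℕ) :
    homogeneousComponent d (aeval L P) = aeval L (homogeneousComponent d P) := by
  have h1 : ∀ i, (aeval L (homogeneousComponent i P)).IsHomogeneous i := by
    intro i
    have h2 := (homogeneousComponent_isHomogeneous i P).aeval L (n := 1) hL
    rwa [one_mul] at h2
  have e : aeval L P = ∑ i ∈ Finset.range (P.totalDegree + 1),
      aeval L (homogeneousComponent i P) := by
    rw [← map_sum, sum_homogeneousComponent]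
  rw [e, map_sum]
  by_cases hd : d ∈ Finset.range (P.totalDegree + 1)
  · rw [Finset.sum_eq_single_of_mem d hd, homogeneousComponent_of_mem (h1 d), if_pos rfl]
    intro i _ hi
    rw [homogeneousComponent_of_mem (h1 i), if_neg (Ne.symm hi)]
  · rw [Finset.sum_eq_zero, homogeneousComponent_eq_zero, map_zero]
    · simpa using hd
    · intro i hi
      rw [homogeneousComponent_of_mem (h1 i), if_neg]
      rintro rfl
      exact hd hi

theorem tin_coef {k : Type} [Field k] {P : MvPolynomial (Fin 2) k} {d : ℕ}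
    (hP : P.IsHomogeneous d) (y : Fin 2 → Pool.Agent.H92.OD.HS k) (h0 : y 0 = 1)
    (h1 : y 1 = Pool.Agent.H92.OD.uu k) (h : aeval y P = 0) : P = 0 := by
  classical
  have e : aeval y P = ∑ a ∈ P.support, Pool.Agent.H92.OD.sg ((a 1 : ℕ) : ℚ) (coeff a P) := by
    rw [aeval_def, eval₂_eq']
    refine Finset.sum_congr rfl fun a _ => ?_
    rw [Fin.prod_univ_two, h0, h1, one_pow, one_mul, Pool.Agent.H92.OD.uu_pow,
      Pool.Agent.H92.OD.algebraMap_HS, Pool.Agent.H92.OD.sg_mul_sg, zero_add, mul_one]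
    rfl
  rw [h] at e
  ext a
  rw [coeff_zero]
  by_contra ha
  have ha' : a ∈ P.support := mem_support_iff.2 ha
  have h2 := congrArg (fun z => Pool.Agent.H92.OD.cf z ((a 1 : ℕ) : ℚ)) e
  have h3 : (0 : k) = Pool.Agent.H92.OD.cf (∑ a ∈ P.support,
      Pool.Agent.H92.OD.sg ((a 1 : ℕ) : ℚ) (coeff a P)) ((a 1 : ℕ) : ℚ) := h2
  rw [Pool.Agent.H92.OD.cf_sum, Finset.sum_eq_single_of_mem a ha'] at h3
  · rw [Pool.Agent.H92.OD.cf_sg, if_pos rfl] at h3
    exact ha h3.symm
  · intro b hb hba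
    rw [Pool.Agent.H92.OD.cf_sg, if_neg]
    intro h4
    have h5 : a 1 = b 1 := by exact_mod_cast h4
    have h6 := tin_deg hP ha'
    have h7 := tin_deg hP hb
    rw [Fin.sum_univ_two] at h6 h7
    apply hba
    ext i
    have hi : i = 0 ∨ i = 1 := by omega
    rcases hi with rfl | rfl
    · omega
    · exact h5.symm

theorem pf_TIN (hLOA : T_LOA) : T_TIN := by
  classical
  intro k F σ _ _ _ _ _ _ X dd m G g Q hS hC
  obtain ⟨s, hs, hsQ⟩ := hC.pt
  have hX := hS.cone.hmg
  have hsY : ∀ p : MvPolynomial σ k, aeval X p = 0 → eval s p = 0 :=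
    fun p hp => hsQ p (hC.ker p hp)
  have hsG : eval s G = 0 := hsQ G hC.mem
  have htn := smo_tng X G hS.smo s hs hsY hsG
  obtain ⟨hN, L0, L1, cX, cG, ε, X1, Gs, dX, dG, hL0, hL1, hv0, hv1, -, hε, hX1, hGs, hF, -, -⟩ :=
    i_OSF k F σ X s dd G m ⟨fun f d hf => hX f hf d, hsY⟩ hs hS.li hS.one hS.hG hsG htn
  obtain ⟨c, hc, hcG, -⟩ := Pool.Agent.H13.SF.pf_TAY k (Pool.Agent.H84.SF.Os X s) ε X1 Gs dX dG hF
  have hl : aeval X L0 ≠ 0 := fun h => hv0 (hsY _ h)
  have hL : ∀ l, ((![L0, L1] : Fin 2 → MvPolynomial σ k) l).IsHomogeneous 1 :=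
    Fin.forall_fin_two.2 ⟨hL0, hL1⟩
  refine ⟨![L0, L1], hL, ?_⟩
  intro P hP hPQ
  obtain ⟨d, hd⟩ : ∃ d, homogeneousComponent d P ≠ 0 := by
    by_contra hcon
    push Not at hcon
    apply hP
    rw [← sum_homogeneousComponent P]
    exact Finset.sum_eq_zero fun i _ => hcon i
  apply hd
  have hPd := homogeneousComponent_isHomogeneous d P
  have hfQ : aeval (![L0, L1] : Fin 2 → MvPolynomial σ k) (homogeneousComponent d P) ∈ Q := by
    rw [← tin_hc _ hL]
    exact hC.hom _ hPQ d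
  have hfh : (aeval (![L0, L1] : Fin 2 → MvPolynomial σ k)
      (homogeneousComponent d P)).IsHomogeneous d := by
    have h2 := hPd.aeval _ (n := 1) hL
    rwa [one_mul] at h2
  set P' := homogeneousComponent d P with hP'
  set f := aeval (![L0, L1] : Fin 2 → MvPolynomial σ k) P' with hf
  obtain ⟨e, p, q, hp, hq, hps, hpq⟩ := hLOA k F σ X dd m G g Q hS hC d f hfh hfQ s hs hsQ
  have hp0 : aeval X p ≠ 0 := fun h => hps (hsY _ h)
  set l : F := aeval X L0 with hldef
  have hw : aeval X q * l ^ m / (aeval X p * l ^ d) ∈ Pool.Agent.H84.SF.Os X s := by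
    refine ⟨e + d + m, q * L0 ^ m, p * L0 ^ d, ⟨?_, ?_, ?_⟩, ?_⟩
    · have := hq.mul (hL0.pow m)
      rwa [one_mul] at this
    · have := hp.mul (hL0.pow d)
      rw [one_mul] at this
      rwa [show e + d + m = e + m + d by ring]
    · rw [map_mul, map_mul, map_pow, map_pow, ← hldef, div_mul_cancel₀ _
        (mul_ne_zero hp0 (pow_ne_zero _ hl))]
    · rw [map_mul, map_pow]
      exact mul_ne_zero hps (pow_ne_zero _ hv0)
  -- the element of the local ring
  have hy : ∃ y : Fin 2 → Pool.Agent.H84.SF.Os X s, y 0 = 1 ∧ y 1 = X1 := ⟨![1, X1], rfl, rfl⟩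
  obtain ⟨y, hy0, hy1⟩ := hy
  have hZ : ((aeval y P' : Pool.Agent.H84.SF.Os X s) : F) =
      aeval (fun i => ((y i : Pool.Agent.H84.SF.Os X s) : F)) P' :=
    (comp_aeval_apply (f := y) (Pool.Agent.H84.SF.Os X s).val P').symm ▸ rfl
  have hfX : aeval X f = l ^ d * ((aeval y P' : Pool.Agent.H84.SF.Os X s) : F) := by
    rw [hZ, ← tin_scale hPd, hf]
    have h1 : aeval X (aeval (![L0, L1] : Fin 2 → MvPolynomial σ k) P') =
        aeval (fun i => aeval X ((![L0, L1] : Fin 2 → MvPolynomial σ k) i)) P' :=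
      comp_aeval_apply (f := (![L0, L1] : Fin 2 → MvPolynomial σ k)) (aeval X) P'
    rw [h1]
    congr 2
    funext i
    revert i
    refine Fin.forall_fin_two.2 ⟨?_, ?_⟩
    · rw [hy0]
      show l = l * ((1 : Pool.Agent.H84.SF.Os X s) : F)
      rw [OneMemClass.coe_one, mul_one]
    · rw [hy1, mul_comm]
      exact hX1.symm
  have hzw : aeval y P' = (⟨_, hw⟩ : Pool.Agent.H84.SF.Os X s) * Gs := by
    apply Subtype.ext
    change ((aeval y P' : Pool.Agent.H84.SF.Os X s) : F) =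
      aeval X q * l ^ m / (aeval X p * l ^ d) * (Gs : F)
    rw [div_mul_eq_mul_div, eq_div_iff (mul_ne_zero hp0 (pow_ne_zero _ hl))]
    rw [map_mul, map_mul, hfX, ← hGs] at hpq
    linear_combination hpq
  have hcz : c (aeval y P') = 0 := by
    rw [hzw, map_mul, hcG, mul_zero]
  have hcz' : aeval (fun i => c (y i)) P' = 0 := by
    rw [← hcz]
    exact (comp_aeval_apply (f := y) c P').symm
  exact tin_coef hPd (fun i => c (y i)) (by show c (y 0) = 1; rw [hy0, map_one])
    (by show c (y 1) = _; rw [hy1]; exact hc.eqX) hcz'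

end Pool.Agent.H34.CNX
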